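import Pool.Agent.H992.SF.GDefs

/-!
# Continuity in the parameters (S_JDIFF)
-/

set_option autoImplicit false
open MeasureTheory Filter Topology Complex ProbabilityTheory
open scoped ContDiff ENNReal

namespace Pool.Agent.H253.SG

open Pool.Agent.N661.BR (J0 MW lin shift IsStationary IsErgodic IsRandomWave meas_eval meas_shift
  meas_W)
open Pool.Agent.Y265.RW (sy rr)
open Pool.Agent.N814.BHM
open Pool.Agent.N814.BHASM
open Pool.Agent.H992.LB
open Pool.Agent.H992.SF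

/-- the mean of the modulus of the difference of two exponentials -/
theorem eX_int {Ω : Set ℂ} {lam : ℕ → ℝ} {u : ℕ → ℂ → ℝ} (H : Hyp Ω lam u) (τ τ' : ℂ →₀ ℝ)
    {ε : ℝ} (hε : 0 < ε) : ∀ᶠ n in atTop,
      ∫ p, ‖eX (lam n) (u n) τ p - eX (lam n) (u n) τ' p‖ ∂(P Ω) ≤ √(nn (τ - τ')) + ε := by
  haveI := probP H
  obtain ⟨φ, hφ, hφ1⟩ := exists_wt H
  obtain ⟨i, hi⟩ := (hφ1.eventually (lt_mem_nhds (show 1 - ε / 4 < 1 by linarith))).exists
  rw [← fstP H] at hi
  obtain ⟨hfi, hle, hnn⟩ := fst_le H (hφ i)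
  set A : ℝ := √(nn (τ - τ')) + ε / 2 with hA
  have hA0 : 0 < A := by positivity
  have h1 : nn (τ - τ') * ∫ p, φ i p.1 ∂(P Ω) < A ^ 2 := by
    calc nn (τ - τ') * ∫ p, φ i p.1 ∂(P Ω) ≤ nn (τ - τ') * 1 := by
          gcongr
          exact nn_nonneg _
      _ = √(nn (τ - τ')) ^ 2 := by rw [mul_one, Real.sq_sqrt (nn_nonneg _)]
      _ < A ^ 2 := by
          apply pow_lt_pow_left₀ _ (Real.sqrt_nonneg _) two_ne_zero
          rw [hA]
          linarith
  have hsm : ∀ᶠ n in atTop, ∀ j, 1 / √(lam n) * ‖pt (τ - τ') j‖ < 1 :=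
    Filter.eventually_all.2 fun j => small H _
  filter_upwards [(iso_SX H (hφ i) (τ - τ')).eventually (gt_mem_nhds h1), hsm] with n hn hn2
  have hm : Measurable fun p : ℂ × (ℝ × Bool) => φ i p.1 :=
    (hφ i).tf.1.continuous.measurable.comp measurable_fst
  have hme : Measurable fun p =>
      ((‖eX (lam n) (u n) τ p - eX (lam n) (u n) τ' p‖ : ℝ) : ℂ) :=
    Complex.measurable_ofReal.comp ((eX_meas (H.sm n) τ).sub (eX_meas (H.sm n) τ')).norm
  have e1 : ∫ p, ‖eX (lam n) (u n) τ p - eX (lam n) (u n) τ' p‖ ∂(P Ω) =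
      ‖∫ p, ((‖eX (lam n) (u n) τ p - eX (lam n) (u n) τ' p‖ : ℝ) : ℂ) ∂(P Ω)‖ := by
    rw [integral_complex_ofReal, Complex.norm_real, Real.norm_eq_abs,
      abs_of_nonneg (integral_nonneg fun p => norm_nonneg _)]
  rw [e1]
  refine (split_bd H (hφ i) hme fun p => ?_).trans ?_
  · rw [Complex.norm_real, Real.norm_eq_abs, abs_of_nonneg (norm_nonneg _)]
    refine (norm_sub_le _ _).trans ?_
    rw [eX_norm, eX_norm]
    norm_num
  have hsi : Integrable (fun p => φ i p.1 * ‖SX (lam n) (u n) (τ - τ') p‖ ^ 2) (P Ω) := by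
    have := sumInt H (hφ i) n (fun j => (((τ - τ') (pt (τ - τ') j) : ℝ) : ℂ)) (fun _ => 0)
      (pt (τ - τ')) hn2
    refine this.congr (Eventually.of_forall fun p => ?_)
    simp only [SX_pt]
  have e2 : ‖∫ p, (φ i p.1 : ℂ) *
      ((‖eX (lam n) (u n) τ p - eX (lam n) (u n) τ' p‖ : ℝ) : ℂ) ∂(P Ω)‖ ≤ A := by
    have e3 : ‖∫ p, (φ i p.1 : ℂ) *
        ((‖eX (lam n) (u n) τ p - eX (lam n) (u n) τ' p‖ : ℝ) : ℂ) ∂(P Ω)‖ ≤
        ∫ p, (A / 2 * φ i p.1 + 1 / (2 * A) * (φ i p.1 * ‖SX (lam n) (u n) (τ - τ') p‖ ^ 2))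
          ∂(P Ω) := by
      refine norm_integral_le_of_norm_le ((hfi.const_mul _).add (hsi.const_mul _))
        (Eventually.of_forall fun p => ?_)
      rw [norm_mul, Complex.norm_real, Real.norm_eq_abs, abs_of_nonneg ((hφ i).mem _).1,
        Complex.norm_real, Real.norm_eq_abs, abs_of_nonneg (norm_nonneg _)]
      have e4 := eX_sub (lam n) (u n) τ τ' p
      set s := ‖SX (lam n) (u n) (τ - τ') p‖
      have e5 : s ≤ A / 2 + 1 / (2 * A) * s ^ 2 := by
        have : 0 ≤ 1 / (2 * A) * (s - A) ^ 2 := by positivity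
        have e6 : 1 / (2 * A) * (s - A) ^ 2 = A / 2 + 1 / (2 * A) * s ^ 2 - s := by
          field_simp
          ring
        linarith
      calc φ i p.1 * ‖eX (lam n) (u n) τ p - eX (lam n) (u n) τ' p‖
          ≤ φ i p.1 * (A / 2 + 1 / (2 * A) * s ^ 2) :=
            mul_le_mul_of_nonneg_left (e4.trans e5) ((hφ i).mem _).1
        _ = A / 2 * φ i p.1 + 1 / (2 * A) * (φ i p.1 * s ^ 2) := by ring
    rw [integral_add (hfi.const_mul _) (hsi.const_mul _), integral_const_mul,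
      integral_const_mul] at e3
    calc _ ≤ A / 2 * ∫ p, φ i p.1 ∂(P Ω) +
          1 / (2 * A) * ∫ p, φ i p.1 * ‖SX (lam n) (u n) (τ - τ') p‖ ^ 2 ∂(P Ω) := e3
      _ ≤ A / 2 * 1 + 1 / (2 * A) * A ^ 2 := by gcongr
      _ = A := by
          field_simp
          ring
  rw [hA] at e2
  linarith

/-- products of numbers of modulus at most one -/
theorem prod_diff {ι : Type*} (s : Finset ι) (a b : ι → ℂ) (ha : ∀ i, ‖a i‖ ≤ 1)
    (hb : ∀ i, ‖b i‖ ≤ 1) : ‖∏ i ∈ s, a i - ∏ i ∈ s, b i‖ ≤ ∑ i ∈ s, ‖a i - b i‖ := by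
  classical
  induction s using Finset.induction_on with
  | empty => simp
  | insert j s hj ih =>
    rw [Finset.prod_insert hj, Finset.prod_insert hj, Finset.sum_insert hj]
    have e1 : a j * ∏ i ∈ s, a i - b j * ∏ i ∈ s, b i =
        (a j - b j) * ∏ i ∈ s, a i + b j * (∏ i ∈ s, a i - ∏ i ∈ s, b i) := by ring
    rw [e1]
    refine (norm_add_le _ _).trans ?_
    rw [norm_mul, norm_mul]
    have h1 : ‖∏ i ∈ s, a i‖ ≤ 1 := by
      rw [norm_prod]
      exact Finset.prod_le_one (fun i _ => norm_nonneg _) fun i _ => ha i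
    have h2 : ‖a j - b j‖ * ‖∏ i ∈ s, a i‖ ≤ ‖a j - b j‖ :=
      mul_le_of_le_one_right (norm_nonneg _) h1
    have h3 : ‖b j‖ * ‖∏ i ∈ s, a i - ∏ i ∈ s, b i‖ ≤ ∑ i ∈ s, ‖a i - b i‖ :=
      (mul_le_of_le_one_left (norm_nonneg _) (hb j)).trans ih
    exact add_le_add h2 h3

theorem eXJ_int {d : ℕ} {Ω : Set ℂ} {lam : Fin d → ℕ → ℝ} {u : Fin d → ℕ → ℂ → ℝ}
    [IsProbabilityMeasure (P Ω)] (H : ∀ i, Hyp Ω (lam i) (u i)) (n : ℕ) (τ : Fin d → ℂ →₀ ℝ) :
    Integrable (fun p => eXJ (fun i => lam i n) (fun i => u i n) τ p) (P Ω) := by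
  have hm : Measurable fun p => eXJ (fun i => lam i n) (fun i => u i n) τ p := by
    unfold eXJ
    exact Finset.measurable_fun_prod _ fun i _ => eX_meas ((H i).sm n) (τ i)
  refine Integrable.of_bound hm.aestronglyMeasurable 1 (Eventually.of_forall fun p => ?_)
  unfold eXJ
  rw [norm_prod]
  exact Finset.prod_le_one (fun i _ => norm_nonneg _) fun i _ => (eX_norm _ _ _ p).le

/-- **Continuity in the parameters.** -/
theorem jdiff : S_JDIFF := by
  intro d Ω lam u H τ τ' ε hε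
  rcases Nat.eq_zero_or_pos d with hd | hd
  · subst hd
    refine Eventually.of_forall fun n => ?_
    simp only [eXJ, Finset.univ_eq_empty, Finset.prod_empty, sub_self, norm_zero,
      Finset.sum_empty, zero_add]
    exact hε.le
  haveI := probP (H ⟨0, hd⟩)
  have hd' : (0 : ℝ) < (d : ℝ) + 1 := by positivity
  have hε' : 0 < ε / ((d : ℝ) + 1) := by positivity
  have hall : ∀ᶠ n in atTop, ∀ i : Fin d,
      ∫ p, ‖eX (lam i n) (u i n) (τ i) p - eX (lam i n) (u i n) (τ' i) p‖ ∂(P Ω) ≤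
        √(nn (τ i - τ' i)) + ε / ((d : ℝ) + 1) :=
    Filter.eventually_all.2 fun i => eX_int (H i) (τ i) (τ' i) hε'
  filter_upwards [hall] with n hn
  have hI : ∀ i : Fin d, Integrable
      (fun p => ‖eX (lam i n) (u i n) (τ i) p - eX (lam i n) (u i n) (τ' i) p‖) (P Ω) := by
    intro i
    refine Integrable.of_bound (((eX_meas ((H i).sm n) (τ i)).sub
      (eX_meas ((H i).sm n) (τ' i))).norm).aestronglyMeasurable 2
      (Eventually.of_forall fun p => ?_)
    rw [Real.norm_eq_abs, abs_of_nonneg (norm_nonneg _)]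
    refine (norm_sub_le _ _).trans ?_
    rw [eX_norm, eX_norm]
    norm_num
  rw [← integral_sub (eXJ_int H n τ) (eXJ_int H n τ')]
  have e1 : ‖∫ p, (eXJ (fun i => lam i n) (fun i => u i n) τ p -
      eXJ (fun i => lam i n) (fun i => u i n) τ' p) ∂(P Ω)‖ ≤
      ∫ p, ∑ i, ‖eX (lam i n) (u i n) (τ i) p - eX (lam i n) (u i n) (τ' i) p‖ ∂(P Ω) := by
    refine norm_integral_le_of_norm_le (integrable_finset_sum _ fun i _ => hI i)
      (Eventually.of_forall fun p => ?_)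
    unfold eXJ
    exact prod_diff _ _ _ (fun i => (eX_norm _ _ _ p).le) fun i => (eX_norm _ _ _ p).le
  rw [integral_finset_sum _ fun i _ => hI i] at e1
  refine e1.trans ?_
  calc ∑ i, ∫ p, ‖eX (lam i n) (u i n) (τ i) p - eX (lam i n) (u i n) (τ' i) p‖ ∂(P Ω)
      ≤ ∑ i : Fin d, (√(nn (τ i - τ' i)) + ε / ((d : ℝ) + 1)) :=
        Finset.sum_le_sum fun i _ => hn i
    _ = ∑ i, √(nn (τ i - τ' i)) + (d : ℝ) * (ε / ((d : ℝ) + 1)) := by
        rw [Finset.sum_add_distrib, Finset.sum_const, Finset.card_univ, Fintype.card_fin,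
          nsmul_eq_mul]
    _ ≤ ∑ i, √(nn (τ i - τ' i)) + ε := by
        have : (d : ℝ) * (ε / ((d : ℝ) + 1)) ≤ ε := by
          rw [← mul_div_assoc, div_le_iff₀ hd']
          nlinarith
        linarith

end Pool.Agent.H253.SG
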